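import Pool.Agent.N206.CG.Stm

/-!
Project CG, LEN: lengths and sections; elements become spinal along the base ray (helper935)
-/

namespace Pool.Agent.N935.CG

open Classical
open Pool.Agent.N206.CG

variable {L : Loc} (S : Sys L)

theorem ll_succ {n k : ℕ} {d : S.D n} :
    d ∈ S.LL n (k + 1) ↔ ∃ e ∈ S.LL n k, ∃ b g, d = e * S.sp n b * S.rt n g := Iff.rfl

theorem ll_zero {n : ℕ} {d : S.D n} : d ∈ S.LL n 0 ↔ ∃ g, S.rt n g = d := Iff.rfl

theorem ll_rt {n : ℕ} (k : ℕ) {d : S.D n} (h : d ∈ S.LL n k) (g : L.P n) :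
    d * S.rt n g ∈ S.LL n k := by
  cases k with
  | zero =>
    obtain ⟨g', rfl⟩ := (ll_zero S).1 h
    exact (ll_zero S).2 ⟨g' * g, map_mul _ _ _⟩
  | succ k =>
    obtain ⟨e, he, b, g', rfl⟩ := (ll_succ S).1 h
    exact (ll_succ S).2 ⟨e, he, b, g' * g, by rw [map_mul, mul_assoc]⟩

theorem ll_step {n : ℕ} (k : ℕ) {d : S.D n} (h : d ∈ S.LL n k) : d ∈ S.LL n (k + 1) :=
  (ll_succ S).2 ⟨d, h, 1, 1, by rw [map_one, map_one, mul_one, mul_one]⟩

theorem ll_mono {n : ℕ} {k k' : ℕ} {d : S.D n} (hk : k ≤ k') (h : d ∈ S.LL n k) :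
    d ∈ S.LL n k' := by
  induction hk with
  | refl => exact h
  | step _ ih => exact ll_step S _ ih

theorem ll_one (n : ℕ) : (1 : S.D n) ∈ S.LL n 0 := (ll_zero S).2 ⟨1, map_one _⟩

theorem ll_sp (n : ℕ) (b : L.B) : S.sp n b ∈ S.LL n 1 :=
  (ll_succ S).2 ⟨1, ll_one S n, b, 1, by rw [map_one, mul_one, one_mul]⟩

theorem ll_mul {n : ℕ} (k k' : ℕ) : ∀ {d e : S.D n}, d ∈ S.LL n k → e ∈ S.LL n k' →
    d * e ∈ S.LL n (k + k') := by
  induction k' with
  | zero =>
    intro d e hd he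
    obtain ⟨g, rfl⟩ := (ll_zero S).1 he
    exact ll_rt S k hd g
  | succ k' ih =>
    intro d e hd he
    obtain ⟨e', he', b, g, rfl⟩ := (ll_succ S).1 he
    exact (ll_succ S).2 ⟨d * e', ih hd he', b, g, by simp only [mul_assoc]⟩

theorem ll_inv {n : ℕ} (k : ℕ) : ∀ {d : S.D n}, d ∈ S.LL n k → d⁻¹ ∈ S.LL n k := by
  induction k with
  | zero =>
    intro d hd
    obtain ⟨g, rfl⟩ := (ll_zero S).1 hd
    exact (ll_zero S).2 ⟨g⁻¹, map_inv _ _⟩
  | succ k ih =>
    intro d hd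
    obtain ⟨e, he, b, g, rfl⟩ := (ll_succ S).1 hd
    have h1 : S.rt n g⁻¹ * S.sp n b⁻¹ ∈ S.LL n 1 := by
      have := ll_mul S 0 1 ((ll_zero S).2 ⟨g⁻¹, rfl⟩) (ll_sp S n b⁻¹)
      rwa [zero_add] at this
    have h2 := ll_mul S 1 k h1 (ih he)
    rw [add_comm 1 k] at h2
    have h3 : (e * S.sp n b * S.rt n g)⁻¹ = S.rt n g⁻¹ * S.sp n b⁻¹ * e⁻¹ := by
      rw [map_inv, map_inv]
      group
    rw [h3]
    exact h2

theorem ll_ex {n : ℕ} (d : S.D n) : ∃ k, d ∈ S.LL n k := by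
  have hd : d ∈ Subgroup.closure (Set.range (S.rt n) ∪ Set.range (S.sp n)) := by
    rw [S.gen]
    exact Subgroup.mem_top d
  induction hd using Subgroup.closure_induction with
  | mem x hx =>
    rcases hx with ⟨g, rfl⟩ | ⟨b, rfl⟩
    · exact ⟨0, (ll_zero S).2 ⟨g, rfl⟩⟩
    · exact ⟨1, ll_sp S n b⟩
  | one => exact ⟨0, ll_one S n⟩
  | mul x y _ _ hx hy =>
    obtain ⟨k, hk⟩ := hx
    obtain ⟨k', hk'⟩ := hy
    exact ⟨k + k', ll_mul S k k' hk hk'⟩
  | inv x _ hx =>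
    obtain ⟨k, hk⟩ := hx
    exact ⟨k, ll_inv S k hk⟩

theorem t_LEN {L : Loc} (S : Sys L) : S_LEN S := fun n =>
  ⟨fun d => ll_ex S d, fun _ _ _ hk h => ll_mono S hk h, fun k k' _ _ hd he => ll_mul S k k' hd he,
    fun k _ h => ll_inv S k h⟩

theorem t_SEC {L : Loc} (S : Sys L) : S_SEC S := by
  intro n k
  induction k with
  | zero =>
    intro d hd
    obtain ⟨g, rfl⟩ := (ll_zero S).1 hd
    refine ⟨fun _ => 0, fun F => by simp, fun x => ?_, fun _ => ⟨1, ?_⟩⟩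
    · rw [S.sec_rt]
      exact ll_one S (n + 1)
    · rw [S.sec_rt, map_one]
  | succ k ih =>
    intro d hd
    obtain ⟨e, he, b, g, rfl⟩ := (ll_succ S).1 hd
    obtain ⟨c, hc1, hc2, hc3⟩ := ih e he
    have hsec : ∀ x, S.sec n (e * S.sp n b * S.rt n g) x =
        S.sec n e ((g : Equiv.Perm (L.E n)) x) *
          S.sec n (S.sp n b) ((g : Equiv.Perm (L.E n)) x) := by
      intro x
      rw [S.sec_mul, S.sec_rt, mul_one, S.root_rt, S.sec_mul, S.root_sp, Equiv.Perm.one_apply]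
    refine ⟨fun x => c ((g : Equiv.Perm (L.E n)) x) +
      if (g : Equiv.Perm (L.E n)) x = L.z n then 1 else 0, fun F => ?_, fun x => ?_, fun hz => ?_⟩
    · have h1 : ∑ x ∈ F, (c ((g : Equiv.Perm (L.E n)) x) +
          if (g : Equiv.Perm (L.E n)) x = L.z n then 1 else 0) =
          ∑ y ∈ F.map (g : Equiv.Perm (L.E n)).toEmbedding, (c y + if y = L.z n then 1 else 0) := by
        rw [Finset.sum_map]
        rfl
      rw [h1, Finset.sum_add_distrib, Finset.sum_ite_eq']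
      have h2 := hc1 (F.map (g : Equiv.Perm (L.E n)).toEmbedding)
      split_ifs <;> omega
    · rw [hsec]
      beta_reduce
      set y := (g : Equiv.Perm (L.E n)) x with hy
      by_cases h : y = L.z n
      · rw [if_pos h]
        have h3 : S.sec n (S.sp n b) y = S.sp (n + 1) b := by rw [h]; exact S.sec_sp_z n b
        rw [h3]
        exact ll_mul S (c y) 1 (hc2 y) (ll_sp S (n + 1) b)
      · rw [if_neg h, add_zero]
        by_cases hX : y ∈ L.X n
        · rw [S.sec_sp_X n b y hX]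
          exact ll_rt S _ (hc2 y) _
        · rw [S.sec_sp_o n b y h hX, mul_one]
          exact hc2 y
    · have h1 : c ((g : Equiv.Perm (L.E n)) (L.z n)) ≤ k := by
        have := hc1 {(g : Equiv.Perm (L.E n)) (L.z n)}
        rwa [Finset.sum_singleton] at this
      by_cases h : (g : Equiv.Perm (L.E n)) (L.z n) = L.z n
      · simp only [h, if_true] at hz
        obtain ⟨b', hb'⟩ := hc3 (by omega)
        refine ⟨b' * b, ?_⟩
        rw [hsec, h, hb', S.sec_sp_z, map_mul]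
      · beta_reduce at hz
        rw [if_neg h] at hz
        omega

theorem t_STAB {L : Loc} (S : Sys L) (h1 : S_LEN S) (h2 : S_SEC S) : S_STAB S := by
  intro s hs
  have hex : ∀ m, ∃ k, s m ∈ S.LL m k := fun m => (h1 m).1 (s m)
  set l : ℕ → ℕ := fun m => Nat.find (hex m) with hl
  have hl1 : ∀ m, s m ∈ S.LL m (l m) := fun m => Nat.find_spec (hex m)
  have hl2 : ∀ m k, s m ∈ S.LL m k → l m ≤ k := fun m k h => Nat.find_min' (hex m) h
  have key : ∀ m, l (m + 1) ≤ l m ∧ (l (m + 1) = l m → ∃ b, s (m + 1) = S.sp (m + 1) b) := by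
    intro m
    obtain ⟨c, hc1, hc2, hc3⟩ := h2 m (l m) (s m) (hl1 m)
    have h3 : c (L.z m) ≤ l m := by
      have := hc1 {L.z m}
      rwa [Finset.sum_singleton] at this
    have h4 : l (m + 1) ≤ c (L.z m) := by
      refine hl2 (m + 1) _ ?_
      rw [hs m]
      exact hc2 _
    refine ⟨h4.trans h3, fun h => ?_⟩
    rw [hs m]
    exact hc3 (by omega)
  have hanti : Antitone l := antitone_nat_of_succ_le fun m => (key m).1
  obtain ⟨N, hN⟩ : ∃ N, ∀ m, l N ≤ l m := by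
    obtain ⟨N, hN⟩ := Nat.sInf_mem (Set.range_nonempty l)
    exact ⟨N, fun m => by rw [hN]; exact Nat.sInf_le ⟨m, rfl⟩⟩
  obtain ⟨b, hb⟩ := (key N).2 (le_antisymm (key N).1 (hN _))
  refine ⟨N + 1, b, fun m hm => ?_⟩
  induction m, hm using Nat.le_induction with
  | base => exact hb
  | succ m _ ih => rw [hs m, ih, S.sec_sp_z]

end Pool.Agent.N935.CG
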